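import Mathlib
import Pool.Agent.X240.PM.ZeroMain
import Pool.Agent.X240.PM.ZeroUpper

/-!
# Integer 3SUM (sum zero) on ideal parallel machines

Integer 3SUM needs `n ^ (2 - o(1))` processors on ideal parallel machines (concurrent reading,
searching in lists of cells, priority writing, arbitrary instruction set and word size) whose running
time is `o(log n / log log n)`, even if the list is given in increasing order, and even if the machine
is randomized and has to be correct only with probability `1 / 2 + n ^ (-ε / 12)`; with `n ^ 2`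
processors three steps are enough.

The lower bound is for a fixed distribution on pairs of a no-instance and a yes-instance: the results
of a machine on the two instances of a pair differ only with probability `n ^ (- ε / 12)`.
The proof transfers the lower bound for the problem `a + b = c` (`Pool.Agent.W964.Wd`), for arbitrary
codings item by item: with `h = ⌊n / 2⌋` and a random list `z_1 < ... < z_h` of blocks, the list
is `- z_h, ..., - z_1, z_1, ..., z_h` and, if `n` is odd, one large number.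
-/

set_option autoImplicit false

namespace Pool.Agent.Results.MP_8f87b2_lc.ParallelMachines

open Pool.Agent.W964.Wd Pool.Agent.X240.PM Finset

open Classical in
/-- `ZeroInst n x`: the list `x` of `n` integers in `[-n ^ 4, n ^ 4]` is strictly increasing.
`ZeroYes x`: three entries with distinct indices have the sum zero. -/
theorem result (ε : ℝ) (hε : 0 < ε) (hε1 : ε ≤ 1) (K : ℕ) :
    (∃ δ : ℝ, 0 < δ ∧ ∃ n₀ : ℕ, ∀ n : ℕ, n₀ ≤ n →
      ∃ (Ξ : Type) (_ : Fintype Ξ) (μ : Ξ → ℝ) (x x' : Ξ → Fin n → ℤ),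
        (∀ ξ, 0 ≤ μ ξ) ∧ ∑ ξ, μ ξ = 1 ∧
        (∀ ξ, μ ξ ≠ 0 → ZeroInst n (x ξ) ∧ ¬ ZeroYes (x ξ) ∧ ZeroInst n (x' ξ) ∧
          ZeroYes (x' ξ)) ∧
        ∀ T P : ℕ, 1 ≤ T → T * Real.log (Real.log n) ≤ δ * Real.log n →
          (P : ℝ) ≤ (n : ℝ) ^ (2 - ε) →
          (∀ M : Machine ℤ (Fin n) P, M.Lists (n ^ K) →
            ∑ ξ, μ ξ * (if M.result T (x ξ) ≠ M.result T (x' ξ) then (1 : ℝ) else 0) ≤
              (n : ℝ) ^ (-(ε / 12))) ∧
          (∀ R : RandMachine ℤ (Fin n) P, R.Lists (n ^ K) →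
            ∃ z : Fin n → ℤ, ZeroInst n z ∧
              R.success T z (ZeroYes z) ≤ 1 / 2 + (n : ℝ) ^ (-(ε / 12)))) ∧
    (∀ n : ℕ, ∃ M : Machine ℤ (Fin n) (n * n), M.Lists 1 ∧
      ∀ T : ℕ, 3 ≤ T → ∀ x : Fin n → ℤ, Function.Injective x →
        (M.answer T x = true ↔ ZeroYes x)) := by
  constructor
  · obtain ⟨δ, hδ, n₀, h⟩ := zero_core ε hε hε1 K
    refine ⟨δ, hδ, n₀, fun n hn => ?_⟩
    obtain ⟨Ξ, fΞ, μ, x, x', h0, h1, h2, h3⟩ := h n hn
    refine ⟨Ξ, fΞ, μ, x, x', h0, h1, h2, fun T P hT hTn hP => ⟨fun M hM => ?_, fun R hR => ?_⟩⟩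
    · exact h3 T P hT hTn hP M hM
    · exact rand_pairs R T μ h0 h1 x x' (ZeroInst n) ZeroYes h2 (by positivity)
        (fun ω => h3 T P hT hTn hP (R.mach ω) (hR ω))
  · intro n
    exact ⟨zeroMach n, zeroMach_lists n, fun T hT x hx => zeroMach_correct x hx T hT⟩

end Pool.Agent.Results.MP_8f87b2_lc.ParallelMachines
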