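import Mathlib
import Pool.Agent.X240.TS.Word

/-!
# 3SUM: branching programs which test formulas over machine words

The input consists of `2 n` distinct integers of absolute value at most `(2 n) ^ 3`; the question is
whether three of them have the sum zero. The items of the input are each of the first `n` numbers, and
the list of the other `n` numbers.

The formulas (`Fml`) compute with integers: they are built from constants, arbitrary integral
functions of one item (so the list of the last `n` numbers is read at once), and arbitrary integral
functions of `w` words of length `c log₂ (2 n)`, where each word is an arbitrary function of one item,
by sums, products, maxima, minima, sign tests `pos` (with the values `0`, `1`), and gates `sym` of any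
fan-in whose value is an arbitrary function of the number of positive inputs. All numbers which occur
have absolute value at most `(2 n) ^ v`, that is, they are machine words. A formula accepts if its
value is positive. Its size is the number of leaves (constants are free) plus the number of wires
which lead to gates `sym`. In a branching program (`Program`) every inner node tests whether a formula
accepts; its size is the number of inner nodes plus the sizes of all these formulas.

We show that random branching programs of size at most `s` with error probability at most `1 / 3` need
`n ^ 2 ≤ 6000 w (v + c w) s`, that is, quadratic size if `w`, `c` and `v` are bounded.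

Proof. By the coding of helper697 each of the first `n` numbers can ask for about `n log₂ n / 7` bits
which are encoded in the list. We count the functions of this number which arise when the other items
are fixed (Nechiporuk's method). Between the `r` leaves which see the number there are `O (r)` places
at which other parts of the formula enter, and the function of the value below such a place is one of
the functions `clamp (a x + b)`, or has few values; so it is given by `O (v log n)` bits, and this is
closed under composition (`Pool.Agent.Y638.WF.Core`).
-/

set_option autoImplicit false

namespace Pool.Agent.Results.MP_8f87b2_lc.WordPrograms

open Pool.Agent.TH697.Form (IsProb)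
open Pool.Agent.TH697.Row (ApproximatesOn)
open Pool.Agent.TH697.Form.ThreeSum (Item Valid)
open Pool.Agent.TH457.Ary.ZeroSum (zeroSum)
open Pool.Agent.Y638.WF (Program)

theorem result : ∀ n c w v : ℕ, 400 ≤ n → 1 ≤ c → 1 ≤ w → 1 ≤ v →
    ∀ (Ω : Type) [Fintype Ω] (μ : Ω → ℝ), IsProb μ →
      ∀ (s : ℕ) (B : Ω → Program (Option (Fin n)) (Item n n) w ((2 * n) ^ c) ((2 * n) ^ v)
          (Valid n n) s),
        ApproximatesOn μ (fun ω => (B ω).eval) (Valid n n) (zeroSum n) →
        (n : ℝ) ^ 2 ≤ 6000 * w * (v + c * w) * s :=
  fun _ _ _ _ hn hc hw hv _ _ μ hμ s B hB =>
    Pool.Agent.X240.TS.word_bound hn hc hw hv μ hμ s B hB

end Pool.Agent.Results.MP_8f87b2_lc.WordPrograms
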